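import Mathlib

set_option autoImplicit false

namespace Pool.Agent.Results.MP_b58a5b_nt.Unbounded

/-- A numerical semigroup: a subset of `ℕ` that contains `0`, is closed under addition and has
finite complement. -/
def IsNumericalSemigroup (S : Set ℕ) : Prop :=
  0 ∈ S ∧ (∀ a ∈ S, ∀ b ∈ S, a + b ∈ S) ∧ Sᶜ.Finite

/-- A numerical semigroup is irreducible if it is not the intersection of two numerical
semigroups properly containing it. -/
def IsIrreducible (S : Set ℕ) : Prop :=
  IsNumericalSemigroup S ∧
    ¬ ∃ S₁ S₂ : Set ℕ, IsNumericalSemigroup S₁ ∧ IsNumericalSemigroup S₂ ∧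
      S ⊂ S₁ ∧ S ⊂ S₂ ∧ S = S₁ ∩ S₂

/-- In an irreducible numerical semigroup `T` with largest gap `F`, each gap `x ≠ F / 2` is
reflected to an element of `T`. -/
theorem reflect {T : Set ℕ} (hT : IsIrreducible T) {F : ℕ} (hF : F ∉ T)
    (hmax : ∀ x, x ∉ T → x ≤ F) {x : ℕ} (hx : x ∉ T) (hxF : 2 * x ≠ F) : F - x ∈ T := by
  classical
  obtain ⟨⟨h0, hadd, hfin⟩, hirr⟩ := hT
  have hlarge : ∀ x, F < x → x ∈ T := by
    intro x hx
    by_contra h
    exact absurd (hmax x h) (by omega)
  by_contra hcon
  let B : Set ℕ := {x | x ∉ T ∧ F - x ∉ T ∧ 2 * x ≠ F}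
  have hBfin : B.Finite := hfin.subset (fun y hy => hy.1)
  obtain ⟨h, hh⟩ := hBfin.exists_maximal ⟨x, hx, hcon, hxF⟩
  obtain ⟨⟨h1, h2, h3⟩, hm⟩ := hh
  have hmax' : ∀ y ∈ B, y ≤ h := by
    intro y hy
    by_contra hlt
    exact hlt (hm hy (le_of_lt (not_le.1 hlt)))
  have hhF : h ≤ F := hmax h h1
  have hFh : F - h ∈ B := by
    refine ⟨h2, ?_, by omega⟩
    have : F - (F - h) = h := by omega
    rw [this]; exact h1
  have hhalf : F < 2 * h := by
    have := hmax' _ hFh
    omega
  have hne : h ≠ F := by
    intro he
    apply h2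
    rw [he, Nat.sub_self]
    exact h0
  -- `T ∪ {h}` and `T ∪ {F}` are numerical semigroups whose intersection is `T`
  apply hirr
  refine ⟨insert h T, insert F T, ⟨Set.mem_insert_of_mem _ h0, ?_, ?_⟩,
    ⟨Set.mem_insert_of_mem _ h0, ?_, ?_⟩, ?_, ?_, ?_⟩
  · have key : ∀ s ∈ T, h + s ∈ insert h T := by
      intro s hs
      by_cases hs0 : s = 0
      · subst hs0; exact Set.mem_insert _ _
      · right
        by_contra hns
        have hle := hmax _ hns
        have hnB : h + s ∉ B := fun hB => by
          have := hmax' _ hB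
          omega
        have : F - (h + s) ∈ T := by
          by_contra hc
          exact hnB ⟨hns, hc, by omega⟩
        have h4 := hadd _ this _ hs
        have h5 : F - (h + s) + s = F - h := by omega
        rw [h5] at h4
        exact h2 h4
    intro a ha b hb
    rcases ha with rfl | ha
    · rcases hb with rfl | hb
      · right; exact hlarge _ (by omega)
      · exact key b hb
    · rcases hb with rfl | hb
      · rw [add_comm]; exact key a ha
      · right; exact hadd a ha b hb
  · exact hfin.subset (by
      intro y hy hyT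
      exact hy (Set.mem_insert_of_mem _ hyT))
  · intro a ha b hb
    rcases ha with rfl | ha
    · by_cases hb0 : b = 0
      · subst hb0; left; omega
      · right; exact hlarge _ (by omega)
    · rcases hb with rfl | hb
      · by_cases ha0 : a = 0
        · subst ha0; left; omega
        · right; exact hlarge _ (by omega)
      · right; exact hadd a ha b hb
  · exact hfin.subset (by
      intro y hy hyT
      exact hy (Set.mem_insert_of_mem _ hyT))
  · exact Set.ssubset_insert h1
  · exact Set.ssubset_insert hF
  · ext y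
    constructor
    · intro hy
      exact ⟨Set.mem_insert_of_mem _ hy, Set.mem_insert_of_mem _ hy⟩
    · rintro ⟨hy1, hy2⟩
      rcases hy1 with rfl | hy1
      · rcases hy2 with hy2 | hy2
        · exact absurd hy2 hne
        · exact hy2
      · exact hy1

/-- A submonoid of `ℕ` containing `a` and `b` contains each multiple of `gcd a b` that is at least
`a * b`. -/
theorem mem_of_gcd_dvd {T : Set ℕ} (h0 : 0 ∈ T) (hadd : ∀ a ∈ T, ∀ b ∈ T, a + b ∈ T)
    {a b F : ℕ} (ha : a ∈ T) (hb : b ∈ T) (hapos : 0 < a) (hg : Nat.gcd a b ∣ F)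
    (hF : a * b ≤ F) : F ∈ T := by
  have hmul : ∀ (k c : ℕ), c ∈ T → k * c ∈ T := by
    intro k c hc
    induction k with
    | zero => simpa using h0
    | succ k ih => rw [Nat.succ_mul]; exact hadd _ ih _ hc
  obtain ⟨u, v, huv⟩ := (Int.gcd_dvd_iff (a := (a : ℤ)) (b := (b : ℤ)) (n := F)).1 (by simpa using hg)
  set j : ℤ := v % a with hj
  have hj0 : 0 ≤ j := Int.emod_nonneg _ (by omega)
  have hja : j < a := Int.emod_lt_of_pos _ (by omega)
  have hv : v = a * (v / a) + j := (Int.mul_ediv_add_emod v a).symm
  set i : ℤ := u + b * (v / a) with hi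
  have hsum : (F : ℤ) = i * a + j * b := by
    rw [huv, hi]
    nth_rewrite 1 [hv]
    ring
  have hi0 : 0 ≤ i := by
    by_contra hneg
    push Not at hneg
    have h1 : i * a < 0 := mul_neg_of_neg_of_pos hneg (by omega)
    have h2 : j * b ≤ a * b := mul_le_mul_of_nonneg_right hja.le (by omega)
    have h3 : ((a * b : ℕ) : ℤ) ≤ F := by exact_mod_cast hF
    push_cast at h3
    omega
  obtain ⟨i', hi'⟩ := Int.eq_ofNat_of_zero_le hi0
  obtain ⟨j', hj'⟩ := Int.eq_ofNat_of_zero_le hj0
  rw [hi', hj'] at hsum
  have hF' : F = i' * a + j' * b := by exact_mod_cast hsum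
  rw [hF']
  exact hadd _ (hmul _ _ ha) _ (hmul _ _ hb)

/-- There are arbitrarily large finite sets of positive integers in which each difference divides
the larger element. -/
theorem exists_set (N : ℕ) : ∃ s : Finset ℕ, s.card = N ∧ (∀ x ∈ s, 0 < x) ∧
    ∀ x ∈ s, ∀ y ∈ s, x < y → (y - x) ∣ y := by
  induction N with
  | zero => exact ⟨∅, by simp⟩
  | succ N ih =>
    obtain ⟨s, hcard, hpos, hdvd⟩ := ih
    set M := s.sup id with hM
    have hle : ∀ x ∈ s, x ≤ M := fun x hx => Finset.le_sup (f := id) hx
    have hfac : ∀ d, 0 < d → d ≤ M → d ∣ M.factorial := fun d hd hdM =>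
      Nat.dvd_factorial hd hdM
    have hfpos : 0 < M.factorial := Nat.factorial_pos M
    refine ⟨insert M.factorial (s.map (addLeftEmbedding M.factorial)), ?_, ?_, ?_⟩
    · rw [Finset.card_insert_of_notMem, Finset.card_map, hcard]
      simp only [Finset.mem_map, addLeftEmbedding_apply, not_exists, not_and]
      intro x hx h
      have := hpos x hx
      omega
    · intro x hx
      simp only [Finset.mem_insert, Finset.mem_map, addLeftEmbedding_apply] at hx
      rcases hx with rfl | ⟨y, hy, rfl⟩ <;> omega
    · intro x hx y hy hxy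
      simp only [Finset.mem_insert, Finset.mem_map, addLeftEmbedding_apply] at hx hy
      rcases hx with rfl | ⟨x, hx, rfl⟩
      · rcases hy with rfl | ⟨y, hy, rfl⟩
        · omega
        · have : M.factorial + y - M.factorial = y := by omega
          rw [this]
          exact dvd_add (hfac y (hpos y hy) (hle y hy)) dvd_rfl
      · rcases hy with rfl | ⟨y, hy, rfl⟩
        · omega
        · have h1 : M.factorial + y - (M.factorial + x) = y - x := by omega
          rw [h1]
          refine dvd_add (hfac _ (by omega) ?_) (hdvd x hx y hy (by omega))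
          have := hle y hy
          omega

/-- The number of irreducible numerical semigroups needed to write a numerical semigroup as their
intersection is not bounded: for each `N` there is a numerical semigroup (even one of the form
`{0} ∪ [m, ∞)`) that is not the intersection of at most `N` irreducible numerical semigroups. -/
theorem result : ∀ N : ℕ, ∃ m : ℕ, IsNumericalSemigroup {n : ℕ | n = 0 ∨ m ≤ n} ∧
    ¬ ∃ (k : ℕ) (T : Fin k → Set ℕ), k ≤ N ∧ (∀ i, IsIrreducible (T i)) ∧
      {n : ℕ | n = 0 ∨ m ≤ n} = ⋂ i, T i := by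
  intro N
  obtain ⟨s, hcard, hpos, hdvd⟩ := exists_set (N + 1)
  set M := s.sup id with hM
  have hle : ∀ x ∈ s, x ≤ M := fun x hx => Finset.le_sup (f := id) hx
  have hMpos : 0 < M := by
    have : s.Nonempty := Finset.card_pos.1 (by omega)
    obtain ⟨x, hx⟩ := this
    exact lt_of_lt_of_le (hpos x hx) (hle x hx)
  set L := M.factorial * (M * M + 1) with hL
  have hfpos : 0 < M.factorial := Nat.factorial_pos M
  have hLbig : M * M + 1 ≤ L := by
    rw [hL]; exact Nat.le_mul_of_pos_left _ hfpos
  have hMM : M ≤ M * M := Nat.le_mul_of_pos_left _ hMpos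
  refine ⟨L + M + 1, ⟨Or.inl rfl, ?_, ?_⟩, ?_⟩
  · rintro a (rfl | ha) b (rfl | hb)
    · left; rfl
    · right; omega
    · right; omega
    · right; omega
  · apply (Set.finite_lt_nat (L + M + 1)).subset
    intro y hy
    simp only [Set.mem_compl_iff, Set.mem_ofPred_eq, not_or, not_le] at hy ⊢
    exact hy.2
  · rintro ⟨k, T, hkN, hirr, hS⟩
    -- every `L + x`, `x ∈ s`, is missed by some `T i`
    have hmiss : ∀ x : s, ∃ i : Fin k, L + x.1 ∉ T i := by
      intro x
      by_contra hcon
      push Not at hcon
      have : L + x.1 ∈ ⋂ i, T i := Set.mem_iInter.2 hcon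
      rw [← hS] at this
      have h1 := hle x.1 x.2
      rcases this with h | h <;> omega
    choose f hf using hmiss
    have hinj : Function.Injective f := by
      -- no `T i` misses two of them
      have key : ∀ x ∈ s, ∀ y ∈ s, x < y → ∀ i, L + x ∉ T i → L + y ∉ T i → False := by
        intro x hx y hy hxy i hix hiy
        obtain ⟨h0, hadd, hfin⟩ := (hirr i).1
        obtain ⟨F, hF⟩ := hfin.exists_maximal ⟨L + x, hix⟩
        have hFT : F ∉ T i := hF.1
        have hmax : ∀ z, z ∉ T i → z ≤ F := by
          intro z hz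
          by_contra hlt
          exact hlt (hF.2 hz (le_of_lt (not_le.1 hlt)))
        have hFle : F ≤ L + M := by
          by_contra hlt
          have h1 : F ∈ {n : ℕ | n = 0 ∨ L + M + 1 ≤ n} := Or.inr (by omega)
          rw [hS] at h1
          exact hFT (Set.mem_iInter.1 h1 i)
        have hyF := hmax _ hiy
        have h1 := reflect (hirr i) hFT hmax hix (by omega)
        have h2 := reflect (hirr i) hFT hmax hiy (by omega)
        have hd1 : (y - x) ∣ L := by
          rw [hL]
          apply Dvd.dvd.mul_right
          apply Nat.dvd_factorial (by omega)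
          have := hle y hy
          omega
        have hd2 : (y - x) ∣ L + y := dvd_add hd1 (hdvd x hx y hy hxy)
        set g := Nat.gcd (F - (L + x)) (F - (L + y)) with hg
        have hg1 : g ∣ F - (L + x) := Nat.gcd_dvd_left _ _
        have hg2 : g ∣ F - (L + y) := Nat.gcd_dvd_right _ _
        have hg3 : g ∣ y - x := by
          have h3 : y - x = (F - (L + x)) - (F - (L + y)) := by omega
          rw [h3]
          exact Nat.dvd_sub hg1 hg2
        have hg4 : g ∣ F := by
          have h3 : F = (F - (L + y)) + (L + y) := by omega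
          rw [h3]
          exact dvd_add hg2 (hg3.trans hd2)
        apply hFT
        apply mem_of_gcd_dvd h0 hadd h1 h2 (by omega) hg4
        calc (F - (L + x)) * (F - (L + y)) ≤ M * M :=
              Nat.mul_le_mul (by omega) (by omega)
          _ ≤ F := by omega
      intro x y hxy
      by_contra hne
      have hne' : x.1 ≠ y.1 := fun h => hne (Subtype.ext h)
      rcases lt_or_gt_of_ne hne' with h | h
      · exact key x.1 x.2 y.1 y.2 h (f x) (hf x) (hxy ▸ hf y)
      · exact key y.1 y.2 x.1 x.2 h (f x) (hxy ▸ hf y) (hf x)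
    have hcard' := Fintype.card_le_of_injective f hinj
    simp only [Fintype.card_coe, Fintype.card_fin, hcard] at hcard'
    omega

end Pool.Agent.Results.MP_b58a5b_nt.Unbounded
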